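import Pool.Agent.Zk91.RG.Main

set_option autoImplicit false

/-!
# Almost all numbers of points: smooth general members in ALL degrees for all multiplicities up to almost `√n`

Q1 for `n` general points of the complex projective plane and equal multiplicities `m`. For `n ≥ 37` the starting results
show that all systems `|d H - m ∑ E i|` are nonspecial and that the general member is smooth as soon as
`n * (m + 1).choose 2 + m < (d + 2).choose 2`; for `m < n / 4` nothing was known about the smoothness in the degrees `d` with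
`0 < (d + 2).choose 2 - n * (m + 1).choose 2 ≤ m`.

Here it is shown that for almost all `n` there is no such degree, for all `m` up to almost `√n` at once. For `N ≥ 1` and
`1 ≤ M ≤ √N`, for all `n ≤ N` but at most `60 √N M (1 + log N) + 37`, and for general points: for ALL `m` with
`1 ≤ m ≤ M` and in EVERY degree `d` the system `|d H - m ∑ E i|` is nonspecial, its general member is smooth if it is not
empty, and if `n * (m + 1).choose 2 < (d + 2).choose 2` the same is true for ALL systems `|d H - ∑ w i E i|` with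
`w i ≤ m`. For one `m ≤ √N` there are at most `12 √N (τ(m) + τ(m + 1)) + 37` exceptions `n ≤ N`. In particular
`M = ⌊n ^ δ⌋` is possible for 100% of the `n`, for every `δ < 1 / 2`, with a power saving in the exceptional set.

Proof. `n` is exceptional for `m` only if `n m (m + 1) < u (u + 1) ≤ n m (m + 1) + 2 m` for some `u = d + 1`. Every `u ≤
√(N + 1) (m + 1)` belongs to at most one `n`, and the residue of `u (u + 1)` modulo `m (m + 1)` is in a short interval; the
number of the classes of such `u` modulo `m (m + 1)` is bounded with the Chinese remainder theorem, the inequality of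
Cauchy and Schwarz, and the number of the solutions of `x (x + 1) = y (y + 1)` modulo `m` and modulo `m + 1`.
-/

namespace Pool.Agent.Results.MP_0421d9_ag.AlmostAllNumbers

open Finset Pool.Agent.H248R5

/-- For `n` general points `P` (outside one hypersurface defined over the rationals), ALL `m` with `1 ≤ m ≤ M` and EVERY
degree `d`: `|d H - m ∑ E i|` is nonspecial; if it is not empty, its general member is smooth; and if
`n * (m + 1).choose 2 < (d + 2).choose 2`, then every `|d H - ∑ w i E i|` with all `w i ≤ m` is nonspecial, of the dimension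
of independent conditions, and has a smooth general member. -/
def SmoothUpTo (n M : ℕ) : Prop :=
  ∃ F : MvPolynomial (Fin n × Fin 2) ℚ, F ≠ 0 ∧ ∀ P : Fin n → Fin 2 → ℂ,
    MvPolynomial.aeval (fun ij : Fin n × Fin 2 => P ij.1 ij.2) F ≠ 0 →
      ∀ m : ℕ, 1 ≤ m → m ≤ M → ∀ d : ℕ,
        Module.finrank ℂ ↥(forms (fun _ => m) P d) = (d + 2).choose 2 - n * (m + 1).choose 2 ∧
        (forms (fun _ => m) P d ≠ ⊥ →
          GeneralMember (forms (fun _ => m) P d) (SmoothMember (fun _ => m) P)) ∧
        (n * (m + 1).choose 2 < (d + 2).choose 2 → ∀ w : Fin n → ℕ, (∀ i, w i ≤ m) →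
          Module.finrank ℂ ↥(forms w P d) + ∑ i, (w i + 1).choose 2 = (d + 2).choose 2 ∧
            GeneralMember (forms w P d) (SmoothMember w P))

/-- The same for the single multiplicity `m`. -/
def SmoothAt (n m : ℕ) : Prop :=
  ∃ F : MvPolynomial (Fin n × Fin 2) ℚ, F ≠ 0 ∧ ∀ P : Fin n → Fin 2 → ℂ,
    MvPolynomial.aeval (fun ij : Fin n × Fin 2 => P ij.1 ij.2) F ≠ 0 → ∀ d : ℕ,
        Module.finrank ℂ ↥(forms (fun _ => m) P d) = (d + 2).choose 2 - n * (m + 1).choose 2 ∧
        (forms (fun _ => m) P d ≠ ⊥ →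
          GeneralMember (forms (fun _ => m) P d) (SmoothMember (fun _ => m) P)) ∧
        (n * (m + 1).choose 2 < (d + 2).choose 2 → ∀ w : Fin n → ℕ, (∀ i, w i ≤ m) →
          Module.finrank ℂ ↥(forms w P d) + ∑ i, (w i + 1).choose 2 = (d + 2).choose 2 ∧
            GeneralMember (forms w P d) (SmoothMember w P))

open scoped Classical in
/-- **Theorem.** (1) For all `N` and `1 ≤ M` with `M ^ 2 ≤ N` the number of the `n ≤ N` without the property
`SmoothUpTo n M` is at most `60 √N M (1 + log N) + 37`. (2) For every `δ` with `0 ≤ δ ≤ 1 / 2` and `N ≥ 1` the number of the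
`n ≤ N` without the property `SmoothUpTo n ⌊n ^ δ⌋` is at most `97 N ^ (1 / 2 + δ) (1 + log N)`. (3) For one `m ≥ 1` with
`m ^ 2 ≤ N` the number of the `n ≤ N` without the property `SmoothAt n m` is at most `12 √N (τ(m) + τ(m + 1)) + 37`. -/
theorem result :
    (∀ N M : ℕ, 1 ≤ M → M ^ 2 ≤ N →
      (((range (N + 1)).filter fun n => ¬ SmoothUpTo n M).card : ℝ) ≤ 60 * √(N : ℝ) * M * (1 + Real.log N) + 37) ∧
    (∀ δ : ℝ, 0 ≤ δ → δ ≤ 1 / 2 → ∀ N : ℕ, 1 ≤ N →
      (((range (N + 1)).filter fun n => ¬ SmoothUpTo n ⌊(n : ℝ) ^ δ⌋₊).card : ℝ) ≤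
        97 * (N : ℝ) ^ (1 / 2 + δ) * (1 + Real.log N)) ∧
    (∀ N m : ℕ, 1 ≤ m → m ^ 2 ≤ N →
      (((range (N + 1)).filter fun n => ¬ SmoothAt n m).card : ℝ) ≤
        12 * √(N : ℝ) * ((m.divisors.card : ℝ) + (m + 1).divisors.card) + 37) := by
  refine ⟨fun N M hM hMN => ?_, fun δ hδ hδ2 N hN => ?_, fun N m hm hmN => ?_⟩
  · exact Pool.Agent.Zk91.RG.exc N M hM (by rwa [pow_two] at hMN)
  · refine le_trans (le_of_eq ?_) (Pool.Agent.Zk91.RG.exc_pow hδ hδ2 N hN)
    apply congrArg (Nat.cast (R := ℝ))
    apply congrArg Finset.card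
    ext n
    rw [mem_filter, mem_filter]
    exact Iff.rfl
  · exact Pool.Agent.Zk91.RG.exc_one N m hm (by rwa [pow_two] at hmN)

end Pool.Agent.Results.MP_0421d9_ag.AlmostAllNumbers
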