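import Mathlib
import Pool.Agent.N54.MS.One
import Pool.Agent.Results.MP_0421d9_ag.ThinSequencesSmooth

set_option autoImplicit false

/-!
# Smooth general members in ALL degrees, along almost all sequences of multiplicities with a real parameter (helper39)

Let `D` be any set of natural numbers with at least `N ^ (1 - ε)` members in `(N, 2 N]` for every `ε > 0` and all large `N`
(`Many`), for instance all integers or all primes. Let `g` be any real sequence with `g(t + 1) - g(t) ≥ t ^ (ρ - 1)` for large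
`t`, where `0 < ρ ≤ 1` (for instance `t`, `√t`, `t log t`, `2 ^ t`, `t !`), and `c` any real sequence. Then for almost all real `ξ`
the following holds for the multiplicities `m = ⌊x(t)⌋`, `x(t) = ξ g(t) + c(t)`, `t ∈ D`, if `x(t) → ∞`. The same is true for
almost all `ξ > 1` and `x(t) = ξ ^ g(t) + c(t)`, `g(t)` increasing integers, and for almost all members of all families of twice
continuously differentiable functions whose derivatives are separated (`Spread`). The sequences can grow arbitrarily fast.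

(1) For every `n ≥ 37` which is not a square, and `n` general points of the complex projective plane, the conclusion of
Q1 holds for ALL systems with these points and the multiplicity `m`, for all but at most the proportion `4 / √n < 2 / 3` of the
members `t` of `D` in `(N, 2 N]`: in EVERY degree `d` the system `|d H - m ∑ E i|` is nonspecial, and if it is not empty its
general member is smooth; and if `n * (m + 1).choose 2 < (d + 2).choose 2`, then the same is true for ALL systems
`|d H - ∑ w i E i|` with `w i ≤ m`.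

(2) For every `L`, at least the proportion `κ = 1 / (2 (7 (L + 1)) ^ (L + 1)) > 0` of the multiplicities `m` has the property
of (1) for ALL numbers `37 ≤ n ≤ L` of points at once which are not the squares of odd numbers.

Proof. By the starting file `AllNumbersExactSmooth` a multiplicity can be exceptional for `n` points only if
`√n m + (√n - 3) / 2` is at a distance of at most `2 / √n` from an integer. For almost all `ξ` the exponential sums of
`γ x(t)` over the members of `D` in `(N, 2 N]` are of smaller order for every algebraic number `γ ≠ 0` (`Pool.Agent.N54.MS`).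
For (2) the numbers `√r m + √r / 2` are near integers for all squarefree `1 < r ≤ L` at once for a positive proportion of the
multiplicities (the square roots of the squarefree numbers are linearly independent over the rationals); then
`√n m + (√n - 3) / 2` is near to an integer plus `1 / 2` for all the numbers `n = k ^ 2 r`.
-/

namespace Pool.Agent.Results.MP_0421d9_ag.MetricMultiplicitiesSmooth

open MvPolynomial Filter MeasureTheory Pool.Agent.H248R5
open Pool.Agent.Results.MP_0421d9_ag.ThinSequencesSmooth (SmoothAll window root)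

/-- The derivatives of the consecutive functions `F t` are separated on `[u, v]` and their second derivatives increase. -/
def Spread (ρ u v : ℝ) (F : ℕ → ℝ → ℝ) : Prop :=
  (∀ t, ContDiff ℝ 2 (F t)) ∧ ∃ t₀ : ℕ, ∀ t, t₀ ≤ t → ∀ x ∈ Set.Icc u v,
    (t : ℝ) ^ (ρ - 1) ≤ deriv (F (t + 1)) x - deriv (F t) x ∧
      deriv (deriv (F t)) x ≤ deriv (deriv (F (t + 1))) x

/-- The number of the members `t` of `D` with `N < t ≤ 2 N` and `p t`. -/
noncomputable def count (D : Set ℕ) (p : ℕ → Prop) (N : ℕ) : ℝ :=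
  ({t : ℕ | N < t ∧ t ≤ 2 * N ∧ t ∈ D ∧ p t}.ncard : ℝ)

/-- For every `ε > 0` and all large `N` the set `D` has at least `N ^ (1 - ε)` members `t` with `N < t ≤ 2 N`. -/
def Many (D : Set ℕ) : Prop :=
  ∀ ε : ℝ, 0 < ε → ∀ᶠ N : ℕ in atTop, (N : ℝ) ^ (1 - ε) ≤ count D (fun _ => True) N

/-- the squares of the odd numbers -/
def OddSquare (n : ℕ) : Prop := ∃ k : ℕ, Odd k ∧ n = k ^ 2

/-- If `x t → ∞`, then (1) for every `n ≥ 37` which is not a square, all systems with `n` general points and multiplicity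
`⌊x t⌋` are nonspecial and have smooth general members, for all but at most the proportion `4 / √n + δ` of the members `t`
of `D` in `(N, 2 N]`; (2) for every `L` this holds for ALL the numbers `37 ≤ n ≤ L` of points which are not the squares of
odd numbers at once, for at least the proportion `1 / (2 (7 (L + 1)) ^ (L + 1))` of the members `t` of `D` in `(N, 2 N]`. -/
def Along (D : Set ℕ) (x : ℕ → ℝ) : Prop :=
  Tendsto x atTop atTop →
    (∀ n : ℕ, 37 ≤ n → ¬ IsSquare n → ∀ δ : ℝ, 0 < δ → ∀ᶠ N : ℕ in atTop,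
      count D (fun t => ¬ SmoothAll n ⌊x t⌋₊) N ≤ (4 / √(n : ℝ) + δ) * count D (fun _ => True) N) ∧
    ∀ L : ℕ, ∀ᶠ N : ℕ in atTop, 1 / (2 * (7 * ((L : ℝ) + 1)) ^ (L + 1)) * count D (fun _ => True) N ≤
      count D (fun t => ∀ n : ℕ, 37 ≤ n → n ≤ L → ¬ OddSquare n → SmoothAll n ⌊x t⌋₊) N

/-- a criterion -/
theorem good_of {n m k : ℕ} {s z0 : ℝ} (hn : 37 ≤ n) (hm : n ≤ m) (hs : √(n : ℝ) = k * s) (hz : ∃ z : ℤ, (z : ℝ) = k * z0)
    (h : |k * (s * m + s / 2 - z0)| < 1 / 6) : SmoothAll n m := by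
  by_contra hcon
  obtain ⟨z, h1, h2⟩ := window hn hm hcon
  obtain ⟨z1, hz1⟩ := hz
  have hs6 := root hn
  have h3 : 2 / √(n : ℝ) ≤ 1 / 3 := by
    rw [div_le_iff₀ (by linarith)]
    linarith
  have h4 := abs_lt.1 h
  have e1 : √(n : ℝ) * m + (√(n : ℝ) - 3) / 2 - z = k * (s * m + s / 2 - z0) + (z1 - z) - 3 / 2 := by
    rw [hs, hz1]
    ring
  rw [e1] at h1 h2
  have h5 : (1 : ℝ) < (z1 - z : ℤ) := by
    push_cast
    linarith [h4.2, h1, h3]
  have h6 : ((z1 - z : ℤ) : ℝ) < 2 := by
    push_cast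
    linarith [h4.1, h2, h3]
  have h7 : (1 : ℤ) < z1 - z := by exact_mod_cast h5
  have h8 : z1 - z < 2 := by exact_mod_cast h6
  omega

theorem even_square {n m : ℕ} (hn : 37 ≤ n) (hm : n ≤ m) {k : ℕ} (hk : n = k ^ 2) (he : Even k) : SmoothAll n m := by
  by_contra hcon
  obtain ⟨z, h1, h2⟩ := window hn hm hcon
  have hs6 := root hn
  have h3 : 2 / √(n : ℝ) ≤ 1 / 3 := by
    rw [div_le_iff₀ (by linarith)]
    linarith
  obtain ⟨u, hu⟩ := he
  have hs : √(n : ℝ) = 2 * u := by
    rw [hk]
    push_cast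
    rw [Real.sqrt_sq (Nat.cast_nonneg k), hu]
    push_cast
    ring
  have e1 : √(n : ℝ) * m + (√(n : ℝ) - 3) / 2 - z = ((2 * u * m + u - z : ℤ) : ℝ) - 3 / 2 := by
    rw [hs]
    push_cast
    ring
  rw [e1] at h1 h2
  have h5 : (1 : ℝ) < ((2 * u * m + u - z : ℤ) : ℝ) := by linarith
  have h6 : ((2 * u * m + u - z : ℤ) : ℝ) < 2 := by linarith
  have h7 : (1 : ℤ) < 2 * u * m + u - z := by exact_mod_cast h5
  have h8 : (2 * u * m + u - z : ℤ) < 2 := by exact_mod_cast h6
  omega

theorem of_dvd {q : ℕ} (hq : 1 ≤ q) {x : ℝ} (h : (q : ℤ) ∣ ⌊(q : ℝ) * x⌋ - 0) :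
    ∃ z : ℤ, 0 ≤ x - z ∧ x - z < 1 / q := by
  obtain ⟨z, hz⟩ := h
  have hq0 : (0 : ℝ) < q := by exact_mod_cast hq
  have h1 : ⌊(q : ℝ) * x⌋ = q * z := by linarith
  have h2 := Int.floor_le ((q : ℝ) * x)
  have h3 := Int.lt_floor_add_one ((q : ℝ) * x)
  rw [h1] at h2 h3
  push_cast at h2 h3
  refine ⟨z, ?_, ?_⟩
  · have : (q : ℝ) * z ≤ q * x := h2
    linarith [le_of_mul_le_mul_left this hq0]
  · rw [lt_div_iff₀ hq0]
    linarith

open Pool.Agent.N54.MS Pool.Agent.N141.SG in
theorem along_of {D : Set ℕ} {v : ℕ → ℝ} (h : Gen D v) : Along D v := by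
  classical
  intro hv
  have hlarge : ∀ M : ℝ, ∀ᶠ N : ℕ in atTop, ∀ t ∈ blk D N, M ≤ v t := by
    intro M
    obtain ⟨K, hK⟩ := eventually_atTop.1 (hv.eventually_ge_atTop M)
    filter_upwards [eventually_ge_atTop K] with N hN t ht
    have h2 := (Finset.mem_filter.1 (show t ∈ (Finset.Ioc N (2 * N)).filter (fun t => t ∈ D) by
      unfold blk at ht
      convert ht)).1
    rw [Finset.mem_Ioc] at h2
    exact hK t (by omega)
  refine ⟨fun n hn hsq δ hδ => ?_, fun L => ?_⟩
  · have hs6 := root hn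
    have hs0 : 0 < √(n : ℝ) := by linarith
    have hirr : Irrational √(n : ℝ) := irrational_sqrt_natCast_iff.2 hsq
    have h20 : 0 ≤ 2 / √(n : ℝ) := by positivity
    filter_upwards [gen_arc h hs0 hirr (alg_sqrt n) ((√(n : ℝ) - 3) / 2) (lo := -(2 / √(n : ℝ)))
      (hi := 2 / √(n : ℝ)) (by linarith) hδ, hlarge n] with N h1 h2
    have e : 4 / √(n : ℝ) + δ = 2 / √(n : ℝ) - (-(2 / √(n : ℝ))) + δ := by ring
    rw [e]
    change cnt D (fun t => ¬ SmoothAll n ⌊v t⌋₊) N ≤ _ * cnt D (fun _ => True) N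
    rw [cnt_true, cnt_eq]
    refine le_trans ?_ h1
    have : {t : ℕ | t ∈ blk D N ∧ ¬ SmoothAll n ⌊v t⌋₊} ⊆ (blk D N : Set ℕ) ∩ {t : ℕ | ∃ z : ℤ,
        -(2 / √(n : ℝ)) ≤ √(n : ℝ) * ⌊v t⌋ + (√(n : ℝ) - 3) / 2 - z ∧
          √(n : ℝ) * ⌊v t⌋ + (√(n : ℝ) - 3) / 2 - z ≤ 2 / √(n : ℝ)} := by
      rintro t ⟨ht, ht'⟩
      have h4 := h2 t ht
      obtain ⟨z, h5, h6⟩ := window hn (Nat.le_floor h4) ht'
      have h7 : ((⌊v t⌋₊ : ℕ) : ℝ) = ((⌊v t⌋ : ℤ) : ℝ) := by
        have := Pool.Agent.N54.MS.floor_nat ((Nat.cast_nonneg n).trans h4)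
        exact_mod_cast congrArg (fun z : ℤ => (z : ℝ)) this
      rw [h7] at h5 h6
      exact ⟨Finset.mem_coe.2 ht, z, h5, h6⟩
    exact_mod_cast Set.ncard_le_ncard this ((Finset.finite_toSet (blk D N)).subset fun n hn => hn.1)
  · obtain ⟨q, hq⟩ : ∃ q : ℕ, q = 7 * (L + 1) := ⟨_, rfl⟩
    have hq1 : 1 ≤ q := by omega
    have hqR : (1 : ℝ) ≤ q := by exact_mod_cast hq1
    set R : Finset ℕ := insert 1 ((Finset.range (L + 1)).filter fun r => Squarefree r) with hR
    obtain ⟨c, hc⟩ : ∃ c : ℕ, c = R.card := ⟨_, rfl⟩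
    have hc1 : 1 ≤ c := hc ▸ Finset.card_pos.2 ⟨1, Finset.mem_insert_self _ _⟩
    obtain ⟨rad, hrad, hinj, hsurj⟩ : ∃ rad : Fin c → ℕ, (∀ j, Squarefree (rad j)) ∧ Function.Injective rad ∧
        ∀ r ∈ R, ∃ j, rad j = r := by
      subst hc
      refine ⟨fun j => (R.equivFin.symm j : ℕ), fun j => ?_, fun i j hij => ?_, fun r hr => ?_⟩
      · have h1 : ((R.equivFin.symm j : ℕ)) ∈ insert 1 ((Finset.range (L + 1)).filter fun r => Squarefree r) :=
          (R.equivFin.symm j).2
        show Squarefree (R.equivFin.symm j : ℕ)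
        generalize (R.equivFin.symm j : ℕ) = a at h1
        rw [Finset.mem_insert, Finset.mem_filter] at h1
        rcases h1 with h1 | h1
        · rw [h1]
          exact squarefree_one
        · exact h1.2
      · exact R.equivFin.symm.injective (Subtype.ext hij)
      · exact ⟨R.equivFin ⟨r, hr⟩, by simp⟩
    have hindep : ∀ g : Fin c → ℤ, ∑ j, (g j : ℝ) * √(rad j : ℝ) = 0 → g = 0 := by
      intro g hg
      have h1 : LinearIndependent ℚ (fun j : Fin c => √(rad j : ℝ)) :=
        Pool.Agent.H383.Gauss.sf_indep.comp (fun j : Fin c => ⟨rad j, hrad j⟩)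
          (fun i j hij => hinj (congrArg Subtype.val hij))
      rw [Fintype.linearIndependent_iff] at h1
      have h2 := h1 (fun j => (g j : ℚ)) (by
        rw [← hg]
        refine Finset.sum_congr rfl fun j _ => ?_
        rw [Rat.smul_def]
        push_cast
        rfl)
      funext j
      exact_mod_cast h2 j
    obtain ⟨s, hs⟩ : ∃ s : ℕ → Finset ℕ, s = blk D := ⟨_, rfl⟩
    have hκ0 : (0 : ℝ) < 1 / (2 * (q : ℝ) ^ c) := by positivity
    have h1 := boxesR hc1 (s := s)
      (x := fun n j => √(rad j : ℝ) * v n + (if rad j = 1 then 0 else √(rad j : ℝ) / 2))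
      (by
        intro g hg
        have hγ : ∑ j, (g j : ℝ) * √(rad j : ℝ) ≠ 0 := fun h0 => hg (hindep g h0)
        have halg : IsAlgebraic ℚ (∑ j, (g j : ℝ) * √(rad j : ℝ)) :=
          alg_sum _ _ fun j _ => (alg_int _).mul (alg_sqrt _)
        have h2 := (h _ hγ halg).add_const
          (∑ j, (g j : ℝ) * (if rad j = 1 then 0 else √(rad j : ℝ) / 2))
        have e1 : (fun n => ∑ j, (g j : ℝ) * (√(rad j : ℝ) * v n +
            (if rad j = 1 then 0 else √(rad j : ℝ) / 2))) = fun n =>
            (∑ j, (g j : ℝ) * √(rad j : ℝ)) * v n +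
              ∑ j, (g j : ℝ) * (if rad j = 1 then 0 else √(rad j : ℝ) / 2) := by
          funext n
          rw [Finset.sum_mul, ← Finset.sum_add_distrib]
          exact Finset.sum_congr rfl fun j _ => by ring
        rw [e1, hs]
        exact h2) (q := q) hq1 (δ := 1 / (2 * (q : ℝ) ^ c)) hκ0
    have e1 : 1 / (q : ℝ) ^ c - 1 / (2 * (q : ℝ) ^ c) = 1 / (2 * (q : ℝ) ^ c) := by
      field_simp
      ring
    rw [e1] at h1
    have hcL : c ≤ L + 1 := by
      rw [hc]
      have h2 : R ⊆ Finset.Icc 1 (L + 1) := by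
        intro r hr
        rw [hR, Finset.mem_insert, Finset.mem_filter, Finset.mem_range] at hr
        rw [Finset.mem_Icc]
        rcases hr with hr | ⟨hr1, hr2⟩
        · omega
        · have := Nat.pos_of_ne_zero hr2.ne_zero
          omega
      refine (Finset.card_le_card h2).trans ?_
      rw [Nat.card_Icc]
      omega
    have hκL : 1 / (2 * (7 * ((L : ℝ) + 1)) ^ (L + 1)) ≤ 1 / (2 * (q : ℝ) ^ c) := by
      have e2 : (q : ℝ) = 7 * (L + 1) := by
        rw [hq]
        push_cast
        ring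
      rw [← e2]
      have : (q : ℝ) ^ c ≤ (q : ℝ) ^ (L + 1) := pow_le_pow_right₀ hqR hcL
      gcongr
    filter_upwards [h1, hlarge L] with N hN hlg
    have h2 := hN (fun _ => 0)
    have hcnt0 : 0 ≤ count D (fun _ => True) N := by
      unfold count
      positivity
    refine (mul_le_mul_of_nonneg_right hκL hcnt0).trans ?_
    change _ * cnt D (fun _ => True) N ≤ cnt D (fun t => ∀ n : ℕ, 37 ≤ n → n ≤ L → ¬ OddSquare n → SmoothAll n ⌊v t⌋₊) N
    rw [cnt_true, cnt_eq, ← hs]
    refine h2.trans ?_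
    rw [← Set.ncard_coe_finset]
    have hfin : {t : ℕ | t ∈ s N ∧ ∀ n : ℕ, 37 ≤ n → n ≤ L → ¬ OddSquare n → SmoothAll n ⌊v t⌋₊}.Finite :=
      (Finset.finite_toSet (s N)).subset fun t ht => ht.1
    have hsub : (((s N).filter (fun n => ∀ j, (q : ℤ) ∣
        ⌊(q : ℝ) * (√(rad j : ℝ) * v n + (if rad j = 1 then 0 else √(rad j : ℝ) / 2))⌋ - 0) : Finset ℕ) : Set ℕ) ⊆
          {t : ℕ | t ∈ s N ∧ ∀ n : ℕ, 37 ≤ n → n ≤ L → ¬ OddSquare n → SmoothAll n ⌊v t⌋₊} := by
      intro t ht
      rw [Finset.mem_coe, Finset.mem_filter] at ht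
      obtain ⟨ht1, ht2⟩ := ht
      have hvt : (L : ℝ) ≤ v t := hlg t (hs ▸ ht1)
      have hv0 : 0 ≤ v t := (Nat.cast_nonneg L).trans hvt
      refine ⟨ht1, fun n hn hnL hno => ?_⟩
      have hmn : n ≤ ⌊v t⌋₊ := hnL.trans (Nat.le_floor hvt)
      -- the integer part
      obtain ⟨j1, hj1⟩ := hsurj 1 (Finset.mem_insert_self _ _)
      obtain ⟨z0, h3, h4⟩ := of_dvd hq1 (ht2 j1)
      rw [hj1] at h3 h4
      simp only [Nat.cast_one, Real.sqrt_one, one_mul, if_true, add_zero] at h3 h4
      have hfl : ⌊v t⌋ = z0 := by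
        rw [Int.floor_eq_iff]
        have : 1 / (q : ℝ) ≤ 1 := by
          rw [div_le_one (by linarith)]
          exact hqR
        constructor
        · linarith
        · linarith
      have hflR : ((⌊v t⌋₊ : ℕ) : ℝ) = z0 := by
        have := Pool.Agent.N54.MS.floor_nat hv0
        rw [hfl] at this
        exact_mod_cast this
      obtain ⟨r, k, hkr, hr⟩ := Nat.sq_mul_squarefree n
      have hk0 : k ≠ 0 := by
        rintro rfl
        omega
      have hr0 : r ≠ 0 := by
        rintro rfl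
        omega
      rcases eq_or_ne r 1 with hr1 | hr1
      · have hnk : n = k ^ 2 := by
          rw [← hkr, hr1]
          ring
        refine even_square hn hmn hnk ?_
        by_contra hodd
        exact hno ⟨k, Nat.not_even_iff_odd.1 hodd, hnk⟩
      · have hrn : r ≤ n := by
          rw [← hkr]
          exact Nat.le_mul_of_pos_left r (by positivity)
        have hrR : r ∈ R := by
          rw [hR]
          refine Finset.mem_insert_of_mem (Finset.mem_filter.2 ⟨Finset.mem_range.2 (by omega), hr⟩)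
        obtain ⟨j, hj⟩ := hsurj r hrR
        obtain ⟨z, h5, h6⟩ := of_dvd hq1 (ht2 j)
        rw [hj, if_neg hr1] at h5 h6
        have hs1 : √(n : ℝ) = k * √(r : ℝ) := by
          rw [← hkr]
          push_cast
          rw [Real.sqrt_mul (by positivity), Real.sqrt_sq (Nat.cast_nonneg k)]
        refine good_of hn hmn hs1 (z0 := z) ⟨k * z, by push_cast; ring⟩ ?_
        rw [hflR]
        have hr1' : (1 : ℝ) ≤ √(r : ℝ) := by
          rw [Real.one_le_sqrt]
          exact_mod_cast Nat.one_le_iff_ne_zero.2 hr0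
        have h7 : |√(r : ℝ) * (z0 : ℝ) + √(r : ℝ) / 2 - z| ≤ √(r : ℝ) / q := by
          have h8 : √(r : ℝ) * (v t - z0) ≤ √(r : ℝ) * (1 / q) := mul_le_mul_of_nonneg_left h4.le (by positivity)
          have h9 : 0 ≤ √(r : ℝ) * (v t - z0) := mul_nonneg (by positivity) h3
          have h10 : 1 / (q : ℝ) ≤ √(r : ℝ) / q := by gcongr
          rw [mul_one_div] at h8
          rw [abs_le]
          constructor
          · linarith
          · linarith
        rw [abs_mul, Nat.abs_cast]
        calc (k : ℝ) * |√(r : ℝ) * (z0 : ℝ) + √(r : ℝ) / 2 - z| ≤ k * (√(r : ℝ) / q) :=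
              mul_le_mul_of_nonneg_left h7 (Nat.cast_nonneg k)
          _ = √(n : ℝ) / q := by rw [hs1]; ring
          _ ≤ n / q := by
            gcongr
            rw [Real.sqrt_le_left (Nat.cast_nonneg n)]
            have : (1 : ℝ) ≤ n := by exact_mod_cast (by omega : 1 ≤ n)
            nlinarith
          _ < 1 / 6 := by
            rw [div_lt_div_iff₀ (by linarith) (by norm_num)]
            have h11 : (n : ℝ) ≤ L := by exact_mod_cast hnL
            have h12 : (q : ℝ) = 7 * (L + 1) := by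
              rw [hq]
              push_cast
              ring
            rw [h12]
            linarith
    exact_mod_cast Set.ncard_le_ncard hsub hfin

/-- **Main result.** For every set `D` with many members and almost all members `x` of the three kinds of families of sequences,
`Along D x` holds. The sets of all integers and of all primes have many members. -/
theorem result :
    (∀ D : Set ℕ, Many D → ∀ ρ : ℝ, 0 < ρ → ρ ≤ 1 →
      (∀ (u v : ℝ) (F : ℕ → ℝ → ℝ), Spread ρ u v F →
        ∀ᵐ ξ : ℝ, ξ ∈ Set.Ioc u v → Along D (fun t => F t ξ)) ∧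
      (∀ g c : ℕ → ℝ, (∀ᶠ t : ℕ in atTop, (t : ℝ) ^ (ρ - 1) ≤ g (t + 1) - g t) →
        ∀ᵐ ξ : ℝ, Along D (fun t => ξ * g t + c t)) ∧
      (∀ (g : ℕ → ℕ) (c : ℕ → ℝ), StrictMono g →
        ∀ᵐ ξ : ℝ, 1 < ξ → Along D (fun t => ξ ^ g t + c t))) ∧
    Many Set.univ ∧ Many {p : ℕ | p.Prime} ∧ ∀ n : ℕ, 37 ≤ n → 4 / √(n : ℝ) < 2 / 3 := by
  refine ⟨fun D hD ρ hρ hρ1 => Pool.Agent.N54.MS.three1 hD hρ hρ1 (Along D) fun x hx => along_of hx,
    Pool.Agent.N54.MS.many_univ, Pool.Agent.N54.MS.many_primes, fun n hn => ?_⟩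
  have h1 : (6 : ℝ) < √(n : ℝ) := by
    rw [Real.lt_sqrt (by norm_num)]
    have : (37 : ℝ) ≤ n := by exact_mod_cast hn
    linarith
  rw [div_lt_div_iff₀ (by linarith) (by norm_num)]
  linarith

end Pool.Agent.Results.MP_0421d9_ag.MetricMultiplicitiesSmooth
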