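import Pool.Agent.Zk91.RG.Main
import Pool.Agent.R482.ST.Star

set_option autoImplicit false

/-!
# ALL numbers of points near powers, orbits and multiples of almost every real number

Let `f_j`, `j = 0, 1, 2, …`, be positive functions on `(a, ∞)`, `a ≥ 0`, such that `f_j(t) / t` is nondecreasing, and such
that the sequence `f_j(t)` has exponent of convergence at most `τ` for each `t > a`: for instance `f_j(t) = t ^ (v_j)` for
exponents `v_j ≥ 1` (`τ = 0`; all powers, or the powers `t ^ (2 ^ j)`), the orbits `f_j(t) = g (g (⋯ g (t)))` of any map `g`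
with `g(t) > t` and `g(t) / t` nondecreasing (`τ = 0`; for instance of `t² + c`), and `f_j(t) = v_j t`.

Let `0 ≤ δ ≤ 1 / 2`. For all `α > a` outside a set of Hausdorff dimension at most `(1 / 2 + δ + τ) / (1 - θ)` (so for almost
all `α`, if `θ + τ + δ < 1 / 2`), for every `b` and all but finitely many `j`, ALL numbers `n` with
`|n - f_j(α)| ≤ b f_j(α) ^ θ` have the following property. For `n` general points of the complex projective plane, ALL
multiplicities `m` with `1 ≤ m ≤ n ^ δ` and EVERY degree `d` the system `|d H - m ∑ E i|` is nonspecial, its general member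
is smooth if it is not empty, and if `n * (m + 1).choose 2 < (d + 2).choose 2` the same is true for ALL systems
`|d H - ∑ w i E i|` with `w i ≤ m`.
-/

namespace Pool.Agent.Results.MP_0421d9_ag.NumbersNearPowers

open Finset MeasureTheory Pool.Agent.H248R5

/-- For `n` general points `P` (outside one hypersurface defined over the rationals), ALL `m` with `1 ≤ m ≤ M` and EVERY
degree `d`: `|d H - m ∑ E i|` is nonspecial; if it is not empty, its general member is smooth; and if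
`n * (m + 1).choose 2 < (d + 2).choose 2`, then every `|d H - ∑ w i E i|` with all `w i ≤ m` is nonspecial, of the dimension
of independent conditions, and has a smooth general member. -/
def SmoothUpTo (n M : ℕ) : Prop :=
  ∃ F : MvPolynomial (Fin n × Fin 2) ℚ, F ≠ 0 ∧ ∀ P : Fin n → Fin 2 → ℂ,
    MvPolynomial.aeval (fun ij : Fin n × Fin 2 => P ij.1 ij.2) F ≠ 0 →
      ∀ m : ℕ, 1 ≤ m → m ≤ M → ∀ d : ℕ,
        Module.finrank ℂ ↥(forms (fun _ => m) P d) = (d + 2).choose 2 - n * (m + 1).choose 2 ∧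
        (forms (fun _ => m) P d ≠ ⊥ →
          GeneralMember (forms (fun _ => m) P d) (SmoothMember (fun _ => m) P)) ∧
        (n * (m + 1).choose 2 < (d + 2).choose 2 → ∀ w : Fin n → ℕ, (∀ i, w i ≤ m) →
          Module.finrank ℂ ↥(forms w P d) + ∑ i, (w i + 1).choose 2 = (d + 2).choose 2 ∧
            GeneralMember (forms w P d) (SmoothMember w P))

/-- the functions `f j` are positive on `(a, ∞)`, `a ≥ 0`, and `f j x / x` is nondecreasing there -/
def Starshaped (a : ℝ) (f : ℕ → ℝ → ℝ) : Prop :=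
  0 ≤ a ∧ ∀ j : ℕ, ∀ x y : ℝ, a < x → x ≤ y → 0 < f j x ∧ f j x / x ≤ f j y / y

/-- for each `x > a` the exponent of convergence of the sequence `f j x` is at most `τ` -/
def ExpLe (a : ℝ) (f : ℕ → ℝ → ℝ) (τ : ℝ) : Prop :=
  ∀ x : ℝ, a < x → ∀ t : ℝ, τ < t → Summable (fun j : ℕ => (f j x) ^ (-t))

/-- **Theorem.** Let `0 ≤ δ ≤ 1 / 2`. For all starshaped functions `f` on `(a, ∞)` of exponent of convergence at most
`τ ≥ 0` and all `θ < 1` there is a set `Z` of Hausdorff dimension at most `(1 / 2 + δ + τ) / (1 - θ)`, a null set if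
`θ + τ + δ < 1 / 2`, such that for each `α > a` outside `Z` and each `b`, for all but finitely many `j`, ALL `n` with
`|n - f_j(α)| ≤ b f_j(α) ^ θ` satisfy `SmoothUpTo n ⌊n ^ δ⌋`. The functions `v_j x`, `v_j > 0`, are starshaped on `(0, ∞)`,
of exponent `τ` if `v` has exponent of convergence at most `τ`; the functions `x ^ (v_j)`, `v_j ≥ 1`, are starshaped on
`(1, ∞)`, of exponent `0` if the sums of `exp (-t v_j)` converge for `t > 0`; and the iterates of a map `g` with `g(x) > x`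
for `x > a` and `g(x) / x` nondecreasing are starshaped on `(a, ∞)`, of exponent `0`. -/
theorem result :
    (∀ (δ : ℝ), 0 ≤ δ → δ ≤ 1 / 2 → ∀ (a : ℝ) (f : ℕ → ℝ → ℝ) (τ θ : ℝ), Starshaped a f → 0 ≤ τ → ExpLe a f τ → θ < 1 →
      ∃ Z : Set ℝ, dimH Z ≤ ENNReal.ofReal ((1 / 2 + δ + τ) / (1 - θ)) ∧ (θ + τ + δ < 1 / 2 → volume Z = 0) ∧
        ∀ α : ℝ, a < α → α ∉ Z → ∀ b : ℝ, ∃ j₀ : ℕ, ∀ j : ℕ, j₀ ≤ j → ∀ n : ℕ,
          |(n : ℝ) - f j α| ≤ b * (f j α) ^ θ → SmoothUpTo n ⌊(n : ℝ) ^ δ⌋₊) ∧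
    (∀ (v : ℕ → ℝ) (τ : ℝ), (∀ j, 0 < v j) → (∀ t : ℝ, τ < t → Summable (fun j : ℕ => (v j) ^ (-t))) →
      Starshaped 0 (fun j x => v j * x) ∧ ExpLe 0 (fun j x => v j * x) τ) ∧
    (∀ v : ℕ → ℝ, (∀ j, 1 ≤ v j) → (∀ t : ℝ, 0 < t → Summable fun j : ℕ => Real.exp (-(t * v j))) →
      Starshaped 1 (fun j x => x ^ (v j)) ∧ ExpLe 1 (fun j x => x ^ (v j)) 0) ∧
    (∀ (a : ℝ) (g : ℝ → ℝ), 0 ≤ a → (∀ x y : ℝ, a < x → x ≤ y → g x / x ≤ g y / y) → (∀ x : ℝ, a < x → x < g x) →
      Starshaped a (fun j x => g^[j] x) ∧ ExpLe a (fun j x => g^[j] x) 0) := by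
  refine ⟨?_, Pool.Agent.R482.ST.ex_mul, Pool.Agent.R482.ST.ex_pow, Pool.Agent.R482.ST.ex_orbit⟩
  intro δ hδ hδ2 a f τ θ hf hτ hE hθ
  obtain ⟨Z, hZ, hZ2⟩ := Pool.Agent.R482.ST.win_nat (Pool.Agent.Zk91.RG.Exc δ) hf hτ hE (s := 1 / 2 + δ)
    (by linarith) hθ (Pool.Agent.Zk91.RG.exc_count hδ hδ2)
  refine ⟨Z, hZ, fun hθτ => ?_, fun α hα hαZ b => ?_⟩
  · have h1 : (1 / 2 + δ + τ) / (1 - θ) < 1 := by
      rw [div_lt_one (by linarith)]
      linarith
    have h2 : dimH Z < ((1 : NNReal) : ENNReal) := by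
      refine lt_of_le_of_lt hZ ?_
      rw [ENNReal.coe_one, ← ENNReal.ofReal_one]
      exact (ENNReal.ofReal_lt_ofReal_iff one_pos).2 h1
    have h3 := hausdorffMeasure_of_dimH_lt h2
    rw [NNReal.coe_one, hausdorffMeasure_real] at h3
    exact h3
  · obtain ⟨j₀, hj⟩ := hZ2 α hα hαZ b
    refine ⟨j₀, fun j hj1 n hn => ?_⟩
    by_contra hcon
    exact (hj j hj1 n hn).2 hcon

end Pool.Agent.Results.MP_0421d9_ag.NumbersNearPowers
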