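import Pool.Agent.Zk91.RG.Vec

set_option autoImplicit false

/-!
# 100% of the vectors of multiplicities in boxes: smooth general members in ALL degrees

Let `n` be large, `m ≥ 1`, and let every point get a multiplicity `v i` from an arbitrary set `W i` of at least two numbers
in `[m, m + s]`; for instance all multiplicities run through `m, …, m + s`, or through `m, m + 1`.

For all vectors `v` in the product of the sets `W i` but a proportion of at most `30 (s + 2)^5 / √n`, and for general points
of the complex projective plane (outside one hypersurface over the rationals for all these vectors together), Q1 is true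
for `v` in EVERY degree `d`: the system `|d H - ∑ v i E i|` is nonspecial, its general member is a smooth curve on the
blow-up if it is not empty, and if `∑ (v i + 1).choose 2 < (d + 2).choose 2` then the same is true for ALL systems
`|d H - ∑ u i E i|` with `u i ≤ v i`. It is assumed that `1000 (s + 2) ≤ √n` and `2000000 (s + 2)^3 ≤ m √n`; so `n` may be any
large number if `s` is fixed, uniformly in `m`, and `s` may grow like `n^(1/10 - ε)`.

By a starting result (`Y536.SH.near_smooth`) these systems are nonspecial, and their general members are smooth unless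
`0 < (d + 2).choose 2 - ∑ (v i + 1).choose 2 ≤ max v`. For the proof we show that for almost all `v` the number
`∑ (v i + 1).choose 2` is not in the intervals of length `m + s` below the numbers `(d + 2).choose 2`: after a random choice
of two values for every coordinate this is a problem of Littlewood-Offord type; the theorem of Sperner gives the bound
`O(2^n / √n)` for one interval, and with one half of the coordinates for the large deviations and the other one for the
interval the bounds decrease with the square of the distance from the mean, so that their sum over all `d` is `O(2^n / √n)`.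
-/

namespace Pool.Agent.Results.MP_0421d9_ag.RandomVectors

open Finset Pool.Agent.H248R5

/-- For the points `P` and EVERY degree `d`: `|d H - ∑ v i E i|` is nonspecial; if it is not empty, its general member is
smooth; and if `∑ (v i + 1).choose 2 < (d + 2).choose 2`, then every `|d H - ∑ u i E i|` with `u ≤ v` is nonspecial, of the
dimension of independent conditions, and has a smooth general member. -/
def AllDegrees {n : ℕ} (v : Fin n → ℕ) (P : Fin n → Fin 2 → ℂ) : Prop :=
  ∀ d : ℕ, Module.finrank ℂ ↥(forms v P d) = (d + 2).choose 2 - ∑ i, (v i + 1).choose 2 ∧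
    (forms v P d ≠ ⊥ → GeneralMember (forms v P d) (SmoothMember v P)) ∧
    (∑ i, (v i + 1).choose 2 < (d + 2).choose 2 → ∀ u : Fin n → ℕ, (∀ i, u i ≤ v i) →
      Module.finrank ℂ ↥(forms u P d) + ∑ i, (u i + 1).choose 2 = (d + 2).choose 2 ∧
        GeneralMember (forms u P d) (SmoothMember u P))

/-- **Theorem.** Let `1 ≤ m`, `1000 (s + 2) ≤ √n`, `2000000 (s + 2)^3 ≤ m √n`, and let `W i`, `i = 1, …, n`, be sets of at
least two numbers in `[m, m + s]`. There are a set `E` of at most `30 (s + 2)^5 / √n` times the number of all vectors `v` with
`v i ∈ W i`, and a polynomial `F ≠ 0` with rational coefficients, such that all vectors `v` outside `E` with `v i ∈ W i`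
satisfy `AllDegrees v P` for all `n`-tuples `P` of points with `F(P) ≠ 0`. -/
theorem result (n m s : ℕ) (hm : 1 ≤ m) (h1 : 1000 * ((s : ℝ) + 2) ≤ √(n : ℝ))
    (h2 : 2000000 * ((s : ℝ) + 2) ^ 3 ≤ m * √(n : ℝ)) (W : Fin n → Finset ℕ) (hW : ∀ i, 2 ≤ (W i).card)
    (hW2 : ∀ i, ∀ a ∈ W i, m ≤ a ∧ a ≤ m + s) :
    ∃ E ⊆ Fintype.piFinset W, (E.card : ℝ) ≤ 30 * ((s : ℝ) + 2) ^ 5 / √(n : ℝ) * (Fintype.piFinset W).card ∧
      ∃ F : MvPolynomial (Fin n × Fin 2) ℚ, F ≠ 0 ∧ ∀ P : Fin n → Fin 2 → ℂ,
        MvPolynomial.aeval (fun ij : Fin n × Fin 2 => P ij.1 ij.2) F ≠ 0 →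
          ∀ v ∈ Fintype.piFinset W \ E, AllDegrees v P := by
  classical
  obtain ⟨E, hE, hE2, F, hF, h⟩ := Pool.Agent.Zk91.RG.vec_main hm W hW hW2 h1 h2
  refine ⟨E, hE, hE2, F, hF, fun P hP v hv => h P hP v ?_⟩
  rw [mem_sdiff] at hv ⊢
  exact hv

end Pool.Agent.Results.MP_0421d9_ag.RandomVectors
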